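import Mathlib
import Pool.Agent.Lib.MP_546dcb_an.Final

namespace Pool.Agent.Results.MP_546dcb_an.TwoPointSpectrum

open Pool.Agent.Lib.MP_546dcb_an

/- a complex separable infinite-dimensional Hilbert space has a Hilbert basis indexed by ℕ -/
theorem exists_natBasis (H : Type*) [NormedAddCommGroup H] [InnerProductSpace ℂ H]
    [CompleteSpace H] [TopologicalSpace.SeparableSpace H] (hinf : ¬ FiniteDimensional ℂ H) :
    Nonempty (HilbertBasis ℕ ℂ H) := by
  obtain ⟨w, b, hb⟩ := exists_hilbertBasis ℂ H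
  have hortho : Orthonormal ℂ b := b.orthonormal
  have hcount : w.Countable := by
    refine Set.PairwiseDisjoint.countable_of_isOpen (s := fun x : H => Metric.ball x (1 / 2))
      ?_ (fun _ _ => Metric.isOpen_ball) (fun x _ => ⟨x, Metric.mem_ball_self (by norm_num)⟩)
    intro x hx y hy hxy
    apply Metric.ball_disjoint_ball
    have hx1 : ‖x‖ = 1 := by
      have := hortho.1 ⟨x, hx⟩
      rwa [hb] at this
    have hy1 : ‖y‖ = 1 := by
      have := hortho.1 ⟨y, hy⟩
      rwa [hb] at this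
    have hxy0 : inner ℂ x y = 0 := by
      have := hortho.2 (i := ⟨x, hx⟩) (j := ⟨y, hy⟩) (fun h => hxy (congrArg Subtype.val h))
      rwa [hb] at this
    have h2 : ‖x - y‖ ^ 2 = 2 := by
      rw [@norm_sub_sq ℂ, hx1, hy1, hxy0]
      norm_num
    rw [dist_eq_norm]
    have h3 : (1 : ℝ) ^ 2 ≤ ‖x - y‖ ^ 2 := by rw [h2]; norm_num
    have h4 := le_of_sq_le_sq h3 (norm_nonneg _)
    norm_num
    exact h4
  have hinfw : Infinite w := by
    by_contra hfin
    rw [not_infinite_iff_finite] at hfin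
    have : Fintype w := Fintype.ofFinite w
    exact hinf (b.toOrthonormalBasis.toBasis.finiteDimensional_of_finite)
  have : Countable w := hcount.to_subtype
  obtain ⟨f⟩ := nonempty_equiv_of_countable (α := ℕ) (β := w)
  refine ⟨HilbertBasis.mk (hortho.comp f f.injective) ?_⟩
  have : Set.range (b ∘ f) = Set.range b := f.surjective.range_comp b
  rw [this, b.dense_span]

theorem result (H : Type*) [NormedAddCommGroup H] [InnerProductSpace ℂ H] [CompleteSpace H]
    [TopologicalSpace.SeparableSpace H] (hinf : ¬ FiniteDimensional ℂ H) :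
    ∃ A : H →L[ℂ] H,
      (∀ M N : Submodule ℂ H, IsClosed (M : Set H) → IsClosed (N : Set H) →
        (∀ x ∈ M, A x ∈ M) → (∀ x ∈ N, A x ∈ N) → M ≤ N ∨ N ≤ M) ∧
      (0 : ℂ) ∈ spectrum ℂ A ∧ (1 : ℂ) ∈ spectrum ℂ A := by
  obtain ⟨b⟩ := exists_natBasis H hinf
  let Φ : H ≃L[ℂ] E := b.repr.toContinuousLinearEquiv
  let A : H →L[ℂ] H := Φ.conjContinuousAlgEquiv.symm T
  have hA : ∀ x, Φ (A x) = T (Φ x) := by
    intro x
    have : A x = Φ.symm (T (Φ x)) := rfl
    rw [this, ContinuousLinearEquiv.apply_symm_apply]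
  have hspec : spectrum ℂ A = spectrum ℂ T :=
    AlgEquiv.spectrum_eq (Φ.conjContinuousAlgEquiv.symm.toAlgEquiv) T
  refine ⟨A, fun M N hM hN hAM hAN => ?_, ?_, ?_⟩
  · have key : ∀ K : Submodule ℂ H, IsClosed (K : Set H) → (∀ x ∈ K, A x ∈ K) →
        IsClosed ((K.map (Φ : H →ₗ[ℂ] E) : Submodule ℂ E) : Set E) ∧
        ∀ x ∈ K.map (Φ : H →ₗ[ℂ] E), T x ∈ K.map (Φ : H →ₗ[ℂ] E) := by
      intro K hK hAK
      refine ⟨?_, ?_⟩
      · rw [Submodule.map_coe]
        exact Φ.toHomeomorph.isClosedMap _ hK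
      · rintro _ ⟨x, hx, rfl⟩
        refine ⟨A x, hAK x hx, ?_⟩
        exact hA x
    obtain ⟨h1, h2⟩ := key M hM hAM
    obtain ⟨h3, h4⟩ := key N hN hAN
    rcases T_unicellular _ _ h1 h3 h2 h4 with h | h
    · left
      intro x hx
      obtain ⟨y, hy, hyx⟩ := h (Submodule.mem_map_of_mem hx)
      have : y = x := Φ.injective hyx
      rwa [← this]
    · right
      intro x hx
      obtain ⟨y, hy, hyx⟩ := h (Submodule.mem_map_of_mem hx)
      have : y = x := Φ.injective hyx
      rwa [← this]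
  · rw [hspec]; exact zero_mem_spectrum
  · rw [hspec]; exact one_mem_spectrum

end Pool.Agent.Results.MP_546dcb_an.TwoPointSpectrum
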